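import Pool.Agent.Helper16.PL.St

/-! PL module Half: the recursion of half-plane words -/

open Finset

namespace Pool.PL

open Pool.HW

private theorem hf_image_le {α β : Type*} [DecidableEq β] (s : Finset α) (g : α → β) (f : β → ℝ)
    (hf : ∀ b, 0 ≤ f b) : ∑ b ∈ s.image g, f b ≤ ∑ a ∈ s, f (g a) := by
  classical
  induction s using Finset.induction_on with
  | empty => simp
  | insert a s ha ih =>
    rw [Finset.image_insert, Finset.sum_insert ha]
    by_cases h : g a ∈ s.image g
    · rw [Finset.insert_eq_of_mem h]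
      have := hf (g a)
      linarith
    · rw [Finset.sum_insert h]
      linarith

private theorem hf_union_le {β : Type*} [DecidableEq β] (s t : Finset β) (f : β → ℝ)
    (hf : ∀ b, 0 ≤ f b) : ∑ b ∈ s ∪ t, f b ≤ ∑ b ∈ s, f b + ∑ b ∈ t, f b := by
  have := Finset.sum_union_inter (s₁ := s) (s₂ := t) (f := f)
  have h2 : 0 ≤ ∑ b ∈ s ∩ t, f b := Finset.sum_nonneg fun w _ => hf w
  linarith

private theorem hf_biUnion_le {ι β : Type*} [DecidableEq β] (I : Finset ι) (t : ι → Finset β)
    (f : β → ℝ) (hf : ∀ b, 0 ≤ f b) : ∑ b ∈ I.biUnion t, f b ≤ ∑ i ∈ I, ∑ b ∈ t i, f b := by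
  classical
  induction I using Finset.induction_on with
  | empty => simp
  | insert a s ha ih =>
    rw [Finset.biUnion_insert, Finset.sum_insert ha]
    have := hf_union_le (t a) (s.biUnion t) f hf
    linarith

/-- full decomposition of a half-plane word: the first bridge and the rest -/
theorem hf_decomp {a : ℕ} {v : List Dir} (h : HsH a v) :
    v = [] ∨ ∃ k, k < a ∧ ∃ b' v', v = b' ++ v'.map flipY ∧ BrH (k + 1) b' ∧ HsH k v' := by
  induction a generalizing v with
  | zero => exact Or.inl (HsH_zero h)
  | succ a ih =>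
    rcases half_decomp h with h1 | ⟨u, v', h1, h2, h3⟩
    · rcases ih h1 with h4 | ⟨k, hk, b', v', h5, h6, h7⟩
      · exact Or.inl h4
      · exact Or.inr ⟨k, by omega, b', v', h5, h6, h7⟩
    · exact Or.inr ⟨a, by omega, u, v', h1, h2, h3⟩

theorem half : StHalf := by
  intro z M a h0
  classical
  have hf : ∀ w : List Dir, 0 ≤ z ^ w.length := fun w => pow_nonneg h0 _
  constructor
  · let g : List Dir × List Dir → List Dir := fun p => p.1 ++ p.2.map flipY
    let T := (wle (BrH (a + 1)) M ×ˢ wle (HsH a) M).image g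
    have hsub : wle (HsH (a + 1)) M ⊆ wle (HsH a) M ∪ T := by
      intro w hw
      rw [mem_wle] at hw
      rw [Finset.mem_union]
      rcases half_decomp hw.2 with h | ⟨u, v, rfl, hu, hv⟩
      · left; rw [mem_wle]; exact ⟨hw.1, h⟩
      · right
        refine Finset.mem_image.2 ⟨(u, v), ?_, rfl⟩
        have hl := hw.1
        rw [List.length_append, List.length_map] at hl
        rw [Finset.mem_product, mem_wle, mem_wle]
        exact ⟨⟨by show u.length ≤ M; omega, hu⟩, ⟨by show v.length ≤ M; omega, hv⟩⟩
    have hT : ∑ w ∈ T, z ^ w.length ≤ bH z M (a + 1) * gH z M a := by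
      calc ∑ w ∈ T, z ^ w.length
          ≤ ∑ p ∈ wle (BrH (a + 1)) M ×ˢ wle (HsH a) M, z ^ (g p).length :=
            hf_image_le _ g (fun w => z ^ w.length) hf
        _ = ∑ p ∈ wle (BrH (a + 1)) M ×ˢ wle (HsH a) M, z ^ p.1.length * z ^ p.2.length := by
            refine Finset.sum_congr rfl fun p _ => ?_
            rw [← pow_add]
            show z ^ (p.1 ++ p.2.map flipY).length = _
            rw [List.length_append, List.length_map]
        _ = bH z M (a + 1) * gH z M a := by
            rw [bH, gH, Finset.sum_mul_sum, Finset.sum_product]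
    calc gH z M (a + 1) ≤ ∑ w ∈ wle (HsH a) M ∪ T, z ^ w.length :=
          Finset.sum_le_sum_of_subset_of_nonneg hsub (fun w _ _ => hf w)
      _ ≤ ∑ w ∈ wle (HsH a) M, z ^ w.length + ∑ w ∈ T, z ^ w.length := hf_union_le _ _ _ hf
      _ ≤ gH z M a + bH z M (a + 1) * gH z M a := add_le_add le_rfl hT
      _ = _ := by ring
  · let F : ℕ → Finset (List Dir × List Dir) := fun k =>
      (wle (BrH (a + 1)) M ×ˢ wle (BrH (k + 1)) M).filter (fun q => Sa (q.1 ++ q.2.map flipY))
    let g : (List Dir × List Dir) × List Dir → List Dir := fun p => (p.1.1 ++ p.1.2.map flipY) ++ p.2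
    let T : ℕ → Finset (List Dir) := fun k => (F k ×ˢ wle (HsH k) M).image g
    have hsub : wle (HsH (a + 1)) M ⊆
        (wle (HsH a) M ∪ wle (BrH (a + 1)) M) ∪ (range a).biUnion T := by
      intro w hw
      rw [mem_wle] at hw
      rw [Finset.mem_union, Finset.mem_union]
      rcases half_decomp hw.2 with h | ⟨u, v, hw', hu, hv⟩
      · left; left; rw [mem_wle]; exact ⟨hw.1, h⟩
      · rcases hf_decomp hv with h | ⟨k, hk, b', v', hv', hb', hv''⟩
        · left; right
          subst h
          rw [List.map_nil, List.append_nil] at hw'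
          rw [mem_wle, hw']
          exact ⟨by rw [← hw']; exact hw.1, hu⟩
        · right
          rw [Finset.mem_biUnion]
          refine ⟨k, Finset.mem_range.2 hk, Finset.mem_image.2 ⟨((u, b'), v'), ?_, ?_⟩⟩
          · have hl := hw.1
            have hwe : w = (u ++ b'.map flipY) ++ v' := by
              rw [hw', hv', List.map_append, map_flipY_flipY, List.append_assoc]
            rw [hwe, List.length_append, List.length_append, List.length_map] at hl
            rw [Finset.mem_product, Finset.mem_filter, Finset.mem_product, mem_wle, mem_wle, mem_wle]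
            refine ⟨⟨⟨⟨by show u.length ≤ M; omega, hu⟩, ⟨by show b'.length ≤ M; omega, hb'⟩⟩, ?_⟩,
              ⟨by show v'.length ≤ M; omega, hv''⟩⟩
            have hSa : Sa w := hw.2.1.1
            exact hSa.of_infix (by rw [hwe]; exact (List.prefix_append _ _).isInfix)
          · show (u ++ b'.map flipY) ++ v' = w
            rw [hw', hv', List.map_append, map_flipY_flipY, List.append_assoc]
    have hT : ∀ k, ∑ w ∈ T k, z ^ w.length ≤ qH z M (a + 1) (k + 1) * gH z M k := by
      intro k
      calc ∑ w ∈ T k, z ^ w.length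
          ≤ ∑ p ∈ F k ×ˢ wle (HsH k) M, z ^ (g p).length :=
            hf_image_le _ g (fun w => z ^ w.length) hf
        _ = ∑ p ∈ F k ×ˢ wle (HsH k) M, (z ^ p.1.1.length * z ^ p.1.2.length) * z ^ p.2.length := by
            refine Finset.sum_congr rfl fun p _ => ?_
            rw [← pow_add, ← pow_add]
            show z ^ ((p.1.1 ++ p.1.2.map flipY) ++ p.2).length = _
            rw [List.length_append, List.length_append, List.length_map]
        _ = (∑ q ∈ F k, z ^ q.1.length * z ^ q.2.length) * gH z M k := by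
            rw [gH, Finset.sum_mul_sum, Finset.sum_product]
        _ = qH z M (a + 1) (k + 1) * gH z M k := by
            congr 1
    calc gH z M (a + 1)
        ≤ ∑ w ∈ (wle (HsH a) M ∪ wle (BrH (a + 1)) M) ∪ (range a).biUnion T, z ^ w.length :=
          Finset.sum_le_sum_of_subset_of_nonneg hsub (fun w _ _ => hf w)
      _ ≤ ∑ w ∈ wle (HsH a) M ∪ wle (BrH (a + 1)) M, z ^ w.length
            + ∑ w ∈ (range a).biUnion T, z ^ w.length := hf_union_le _ _ _ hf
      _ ≤ (∑ w ∈ wle (HsH a) M, z ^ w.length + ∑ w ∈ wle (BrH (a + 1)) M, z ^ w.length)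
            + ∑ k ∈ range a, ∑ w ∈ T k, z ^ w.length :=
          add_le_add (hf_union_le _ _ _ hf) (hf_biUnion_le _ _ _ hf)
      _ ≤ (gH z M a + bH z M (a + 1)) + ∑ k ∈ range a, qH z M (a + 1) (k + 1) * gH z M k :=
          add_le_add le_rfl (Finset.sum_le_sum fun k _ => hT k)

end Pool.PL
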